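import Pool.Agent.Run7.h892.CG.Stm

/-!
# Piece UNI of the project CG: units modulo `k`-th powers
-/

set_option autoImplicit false

namespace Pool.Agent.Run7.h427.CG

open NumberField NumberField.Units NumberField.InfinitePlace Pool.Agent.Run7.h892.CG

theorem rank_add_one_le (K : Type) [Field K] [NumberField K] :
    Units.rank K + 1 ≤ Module.finrank ℚ K := by
  have h1 := card_add_two_mul_card_eq_rank K
  have h2 := card_eq_nrRealPlaces_add_nrComplexPlaces K
  have h3 : 0 < Fintype.card (InfinitePlace K) := Fintype.card_pos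
  have h4 : Units.rank K = Fintype.card (InfinitePlace K) - 1 := rfl
  omega

theorem t_UNI : S_UNI := by
  intro K _ _ k hk
  classical
  have : NeZero k := ⟨hk.ne'⟩
  obtain ⟨ζ, hζ⟩ := IsCyclic.exists_generator (α := torsion K)
  have key : ∀ u : (𝓞 K)ˣ, ∃ (a : ℤ) (e : Fin (Units.rank K) → ℤ),
      u = (ζ : (𝓞 K)ˣ) ^ a * ∏ i, (fundSystem K i) ^ e i := by
    intro u
    obtain ⟨⟨z, e⟩, he, -⟩ := exist_unique_eq_mul_prod K u
    obtain ⟨a, ha⟩ := Subgroup.mem_zpowers_iff.1 (hζ z)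
    refine ⟨a, e, ?_⟩
    rw [he, ← ha]
    rfl
  choose a e hae using key
  have hcard : Fintype.card (ZMod k × (Fin (Units.rank K) → ZMod k)) ≤
      Fintype.card (Fin (k ^ Module.finrank ℚ K)) := by
    rw [Fintype.card_prod, Fintype.card_fun, ZMod.card, Fintype.card_fin, Fintype.card_fin,
      ← pow_succ']
    exact Nat.pow_le_pow_right hk (rank_add_one_le K)
  obtain ⟨f⟩ := Function.Embedding.nonempty_of_card_le hcard
  refine ⟨fun u => f ((a u : ZMod k), fun i => ((e u i : ℤ) : ZMod k)), fun u v h => ?_⟩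
  have h1 := f.injective h
  rw [Prod.mk.injEq] at h1
  obtain ⟨h2, h3⟩ := h1
  have h4 : (k : ℤ) ∣ a u - a v := by
    rw [← ZMod.intCast_zmod_eq_zero_iff_dvd, Int.cast_sub, h2, sub_self]
  have h5 : ∀ i, (k : ℤ) ∣ e u i - e v i := by
    intro i
    rw [← ZMod.intCast_zmod_eq_zero_iff_dvd, Int.cast_sub]
    have := congrFun h3 i
    rw [this, sub_self]
  obtain ⟨s, hs⟩ := h4
  choose t ht using h5
  refine ⟨(ζ : (𝓞 K)ˣ) ^ s * ∏ i, (fundSystem K i) ^ t i, ?_⟩
  have h6 : u = (ζ : (𝓞 K)ˣ) ^ (a v + k * s) * ∏ i, (fundSystem K i) ^ (e v i + k * t i) := by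
    conv_lhs => rw [hae u]
    have e1 : a u = a v + k * s := by linarith
    have e2 : ∀ i, e u i = e v i + k * t i := fun i => by linarith [ht i]
    rw [e1]
    congr 1
    exact Finset.prod_congr rfl fun i _ => by rw [e2 i]
  conv_rhs => rw [hae v]
  rw [h6, mul_pow, ← Finset.prod_pow, zpow_add, zpow_mul', zpow_natCast, mul_mul_mul_comm,
    ← Finset.prod_mul_distrib]
  congr 1
  refine Finset.prod_congr rfl fun i _ => ?_
  rw [zpow_add, zpow_mul', zpow_natCast]

end Pool.Agent.Run7.h427.CG
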